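import Pool.Agent.H223.EM.MDefs

/-!
Eighth moment, task MI4: the three-variable instance (helper9).
-/

set_option autoImplicit false

namespace Pool.Agent.H9R3.EMMI4

open Finset Filter Topology MeasureTheory
open Pool.Agent.H306R2 Pool.Agent.H306R2.SM Pool.Agent.H223.EM

noncomputable section

/-! ### local sums -/

theorem hs_congr {ι : Type*} {f g : ι → ℝ} {a b : ℝ} (h : HasSum f a) (hfg : ∀ x, g x = f x)
    (hab : b = a) : HasSum g b := by
  have : g = f := funext hfg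
  rw [this, hab]
  exact h

theorem choose_step (n k : ℕ) : (((n + (k + 1)).choose (k + 1) : ℕ) : ℝ) =
    ((n + k).choose k : ℕ) * ((n : ℝ) + k + 1) / (k + 1) := by
  have h := Nat.add_one_mul_choose_eq (n + k) k
  have h2 : ((n + k + 1 : ℕ) : ℝ) * ((n + k).choose k : ℕ) =
      ((n + k + 1).choose (k + 1) : ℕ) * ((k + 1 : ℕ) : ℝ) := by exact_mod_cast h
  rw [eq_div_iff (by positivity)]
  push_cast at h2
  rw [show n + (k + 1) = n + k + 1 by ring]
  linarith

theorem ch1 (n : ℕ) : (((n + 1).choose 1 : ℕ) : ℝ) = (n : ℝ) + 1 := by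
  rw [Nat.choose_one_right]
  push_cast
  ring

theorem ch2 (n : ℕ) : (((n + 2).choose 2 : ℕ) : ℝ) = ((n : ℝ) + 1) * (n + 2) / 2 := by
  rw [choose_step n 1, ch1]
  push_cast
  ring

theorem ch3 (n : ℕ) : (((n + 3).choose 3 : ℕ) : ℝ) = ((n : ℝ) + 1) * (n + 2) * (n + 3) / 6 := by
  rw [choose_step n 2, ch2]
  push_cast
  ring

theorem ch4 (n : ℕ) : (((n + 4).choose 4 : ℕ) : ℝ) =
    ((n : ℝ) + 1) * (n + 2) * (n + 3) * (n + 4) / 24 := by
  rw [choose_step n 3, ch3]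
  push_cast
  ring

theorem ch5 (n : ℕ) : (((n + 5).choose 5 : ℕ) : ℝ) =
    ((n : ℝ) + 1) * (n + 2) * (n + 3) * (n + 4) * (n + 5) / 120 := by
  rw [choose_step n 4, ch4]
  push_cast
  ring

theorem ch6 (n : ℕ) : (((n + 6).choose 6 : ℕ) : ℝ) =
    ((n : ℝ) + 1) * (n + 2) * (n + 3) * (n + 4) * (n + 5) * (n + 6) / 720 := by
  rw [choose_step n 5, ch5]
  push_cast
  ring

theorem geo (k : ℕ) {x : ℝ} (hx0 : 0 ≤ x) (hx1 : x < 1) :
    HasSum (fun n : ℕ => (((n + k).choose k : ℕ) : ℝ) * x ^ n) (1 / (1 - x) ^ (k + 1)) :=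
  hasSum_choose_mul_geometric_of_norm_lt_one k (by rw [Real.norm_eq_abs, abs_of_nonneg hx0]; exact hx1)

theorem lc_four (m : ℕ) : lc 4 m = ((m : ℝ) + 1) * (m + 2) * (m + 3) / 6 := by
  induction m with
  | zero => simp [lc]; norm_num
  | succ m ih =>
    unfold lc at ih ⊢
    rw [prod_range_succ, ih]
    push_cast
    field_simp
    ring

theorem lc4_hasSum {x : ℝ} (hx0 : 0 ≤ x) (hx1 : x < 1) :
    HasSum (fun m : ℕ => lc 4 m ^ 2 * x ^ m)
      ((1 + 9 * x + 9 * x ^ 2 + x ^ 3) / (1 - x) ^ 7) := by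
  have h := (((geo 6 hx0 hx1).mul_left 20).sub ((geo 5 hx0 hx1).mul_left 30)).add
    (((geo 4 hx0 hx1).mul_left 12).sub (geo 3 hx0 hx1))
  have hx : (1 - x) ≠ 0 := by linarith
  refine hs_congr h ?_ ?_
  · intro m
    rw [lc_four, ch3, ch4, ch5, ch6]
    ring
  · field_simp
    ring

/-- sum over the exponent of the third variable -/
theorem sv_hasSum (a : ℕ) {x : ℝ} (hx0 : 0 ≤ x) (hx1 : x < 1) :
    HasSum (fun v : ℕ => ((a : ℝ) + v + 1) * ((v : ℝ) + 1) * x ^ v)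
      (((a : ℝ) * (1 - x) + 1 + x) / (1 - x) ^ 3) := by
  have h := ((geo 1 hx0 hx1).mul_left ((a : ℝ) - 1)).add ((geo 2 hx0 hx1).mul_left 2)
  have hx : (1 - x) ≠ 0 := by linarith
  refine hs_congr h ?_ ?_
  · intro m
    rw [ch1, ch2]
    ring
  · field_simp
    ring

theorem sa_hasSum (θ : ℝ) {x : ℝ} (hx0 : 0 ≤ x) (hx1 : x < 1) :
    HasSum (fun a : ℕ => (1 + (a : ℝ) * θ) ^ 2 * x ^ a)
      (1 / (1 - x) + 2 * θ * (x / (1 - x) ^ 2) + θ ^ 2 * (x * (1 + x) / (1 - x) ^ 3)) := by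
  have h := (((geo 0 hx0 hx1).mul_left (1 - 2 * θ + θ ^ 2)).add
    ((geo 1 hx0 hx1).mul_left (2 * θ - 3 * θ ^ 2))).add ((geo 2 hx0 hx1).mul_left (2 * θ ^ 2))
  have hx : (1 - x) ≠ 0 := by linarith
  refine hs_congr h ?_ ?_
  · intro m
    rw [ch1, ch2, Nat.choose_zero_right]
    push_cast
    ring
  · field_simp
    ring

theorem Del_eq {p : ℕ} (hp : p.Prime) (a : ℕ) :
    Del p a * (1 + 1 / (p : ℝ)) = a * (1 - 1 / (p : ℝ)) + 1 + 1 / (p : ℝ) := by
  have hp0 : (0 : ℝ) < p := by exact_mod_cast hp.pos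
  unfold Del
  have : (1 + 1 / (p : ℝ)) ≠ 0 := by positivity
  field_simp
  ring

theorem Del_zero (p : ℕ) : Del p 0 = 1 := by
  unfold Del
  simp

theorem Del_nonneg {p : ℕ} (hp : p.Prime) (a : ℕ) : 0 ≤ Del p a := by
  have hp1 : (1 : ℝ) ≤ p := by exact_mod_cast hp.one_lt.le
  have hx1 : 1 / (p : ℝ) ≤ 1 := by
    rw [div_le_one (by linarith)]
    exact hp1
  unfold Del
  have : 0 ≤ 1 - 1 / (p : ℝ) := by linarith
  positivity

/-! ### the local weights -/

/-- local weights -/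
def lam3 (p : ℕ) (v : Fin 3 → ℕ) : ℝ :=
  if v 0 = 0 ∨ v 1 = 0 then
    Del p (v 0) * Del p (v 1) * ((v 0 : ℝ) + v 2 + 1) * ((v 1 : ℝ) + v 2 + 1) *
      (1 / (p : ℝ)) ^ (v 0 + v 1 + v 2)
  else 0

theorem xlt {p : ℕ} (hp : p.Prime) : 0 ≤ 1 / (p : ℝ) ∧ 1 / (p : ℝ) < 1 ∧ 1 / (p : ℝ) ≤ 1 / 2 := by
  have hp2 : (2 : ℝ) ≤ p := by exact_mod_cast hp.two_le
  have h2 : 1 / (p : ℝ) ≤ 1 / 2 := one_div_le_one_div_of_le (by norm_num) hp2
  exact ⟨by positivity, by linarith, h2⟩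

/-- the sum over one of the first two exponents and the third -/
theorem part_hasSum {p : ℕ} (hp : p.Prime) :
    HasSum (fun q : ℕ × ℕ => Del p q.1 * ((q.1 : ℝ) + q.2 + 1) * ((q.2 : ℝ) + 1) *
      (1 / (p : ℝ)) ^ (q.1 + q.2)) ((1 + 4 * (1 / (p : ℝ))) / (1 - 1 / (p : ℝ)) ^ 4) := by
  obtain ⟨hx0, hx1, -⟩ := xlt hp
  set x : ℝ := 1 / (p : ℝ) with hx
  have hne : (1 - x) ≠ 0 := by linarith
  have hne2 : (1 + x) ≠ 0 := by linarith
  have hin : ∀ a : ℕ, HasSum (fun v : ℕ => Del p a * ((a : ℝ) + v + 1) * ((v : ℝ) + 1) *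
      x ^ (a + v)) (Del p a * x ^ a * (((a : ℝ) * (1 - x) + 1 + x) / (1 - x) ^ 3)) := by
    intro a
    refine hs_congr ((sv_hasSum a hx0 hx1).mul_left (Del p a * x ^ a)) (fun v => ?_) rfl
    rw [pow_add]
    ring
  have hval : ∀ a : ℕ, Del p a * x ^ a * (((a : ℝ) * (1 - x) + 1 + x) / (1 - x) ^ 3) =
      (1 + x) / (1 - x) ^ 3 * ((1 + (a : ℝ) * ((1 - x) / (1 + x))) ^ 2 * x ^ a) := by
    intro a
    have h1 : (a : ℝ) * (1 - x) + 1 + x = Del p a * (1 + x) := (Del_eq hp a).symm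
    have h2 : Del p a = 1 + (a : ℝ) * ((1 - x) / (1 + x)) := by
      unfold Del
      rw [← hx]
      ring
    rw [h1, ← h2]
    ring
  have hout : HasSum (fun a : ℕ => Del p a * x ^ a *
      (((a : ℝ) * (1 - x) + 1 + x) / (1 - x) ^ 3)) ((1 + 4 * x) / (1 - x) ^ 4) := by
    have h := (sa_hasSum ((1 - x) / (1 + x)) hx0 hx1).mul_left ((1 + x) / (1 - x) ^ 3)
    refine hs_congr h hval ?_
    field_simp
    ring
  have hnn : ∀ q : ℕ × ℕ, 0 ≤ Del p q.1 * ((q.1 : ℝ) + q.2 + 1) * ((q.2 : ℝ) + 1) *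
      x ^ (q.1 + q.2) := by
    intro q
    have := Del_nonneg hp q.1
    positivity
  have hs : Summable (fun q : ℕ × ℕ => Del p q.1 * ((q.1 : ℝ) + q.2 + 1) * ((q.2 : ℝ) + 1) *
      x ^ (q.1 + q.2)) := by
    rw [summable_prod_of_nonneg hnn]
    refine ⟨fun a => (hin a).summable, ?_⟩
    refine hout.summable.congr fun a => ?_
    exact ((hin a).tsum_eq).symm
  have h3 := hs.hasSum
  have h4 : ∑' q : ℕ × ℕ, Del p q.1 * ((q.1 : ℝ) + q.2 + 1) * ((q.2 : ℝ) + 1) *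
      x ^ (q.1 + q.2) = (1 + 4 * x) / (1 - x) ^ 4 := by
    rw [hs.tsum_prod, ← hout.tsum_eq]
    exact tsum_congr fun a => (hin a).tsum_eq
  rwa [h4] at h3

/-- the local sum -/
theorem lam3_hasSum {p : ℕ} (hp : p.Prime) :
    HasSum (lam3 p) ((1 + 8 * (1 / (p : ℝ)) + (1 / (p : ℝ)) ^ 2) / (1 - 1 / (p : ℝ)) ^ 4) := by
  obtain ⟨hx0, hx1, -⟩ := xlt hp
  have hpart := part_hasSum hp
  have hsv := sv_hasSum 0 hx0 hx1
  set x : ℝ := 1 / (p : ℝ) with hx
  have hne : (1 - x) ≠ 0 := by linarith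
  have hne2 : (1 + x) ≠ 0 := by linarith
  have h1 : HasSum (fun v : Fin 3 → ℕ => if v 1 = 0 then
      Del p (v 0) * ((v 0 : ℝ) + v 2 + 1) * ((v 2 : ℝ) + 1) * x ^ (v 0 + v 2) else 0)
      ((1 + 4 * x) / (1 - x) ^ 4) := by
    have hinj : Function.Injective (fun q : ℕ × ℕ => (![q.1, 0, q.2] : Fin 3 → ℕ)) := by
      intro q q' h
      have a0 := congrFun h 0
      have a2 := congrFun h 2
      simp only [Matrix.cons_val_zero, Matrix.cons_val] at a0 a2
      exact Prod.ext a0 a2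
    refine (hinj.hasSum_iff ?_).1 ?_
    · intro v hv
      split_ifs with h
      · exfalso
        apply hv
        refine ⟨(v 0, v 2), ?_⟩
        funext i
        fin_cases i
        · rfl
        · exact h.symm
        · rfl
      · rfl
    · refine hs_congr hpart (fun q => ?_) rfl
      simp
  have h2 : HasSum (fun v : Fin 3 → ℕ => if v 0 = 0 then
      Del p (v 1) * ((v 1 : ℝ) + v 2 + 1) * ((v 2 : ℝ) + 1) * x ^ (v 1 + v 2) else 0)
      ((1 + 4 * x) / (1 - x) ^ 4) := by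
    have hinj : Function.Injective (fun q : ℕ × ℕ => (![0, q.1, q.2] : Fin 3 → ℕ)) := by
      intro q q' h
      have a0 := congrFun h 1
      have a2 := congrFun h 2
      simp only [Matrix.cons_val_one, Matrix.cons_val] at a0 a2
      exact Prod.ext a0 a2
    refine (hinj.hasSum_iff ?_).1 ?_
    · intro v hv
      split_ifs with h
      · exfalso
        apply hv
        refine ⟨(v 1, v 2), ?_⟩
        funext i
        fin_cases i
        · exact h.symm
        · rfl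
        · rfl
      · rfl
    · refine hs_congr hpart (fun q => ?_) rfl
      simp
  have h3 : HasSum (fun v : Fin 3 → ℕ => if v 0 = 0 ∧ v 1 = 0 then
      ((v 2 : ℝ) + 1) * ((v 2 : ℝ) + 1) * x ^ (v 2) else 0)
      ((1 + x) / (1 - x) ^ 3) := by
    have hinj : Function.Injective (fun c : ℕ => (![0, 0, c] : Fin 3 → ℕ)) := by
      intro q q' h
      have a2 := congrFun h 2
      simpa only [Matrix.cons_val] using a2
    refine (hinj.hasSum_iff ?_).1 ?_
    · intro v hv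
      split_ifs with h
      · exfalso
        apply hv
        refine ⟨v 2, ?_⟩
        funext i
        fin_cases i
        · exact h.1.symm
        · exact h.2.symm
        · rfl
      · rfl
    · refine hs_congr hsv (fun q => ?_) ?_
      · simp
      · push_cast
        ring
  have h := (h1.add h2).sub h3
  refine hs_congr h (fun v => ?_) ?_
  · unfold lam3
    rw [← hx]
    by_cases a : v 0 = 0
    · by_cases b : v 1 = 0
      · simp [a, b, Del_zero]
      · rw [if_pos (Or.inl a), if_neg b, if_pos a, if_neg (fun h => b h.2), a, Del_zero]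
        push_cast
        ring
    · by_cases b : v 1 = 0
      · rw [if_pos (Or.inr b), if_pos b, if_neg a, if_neg (fun h => a h.1), b, Del_zero]
        push_cast
        ring
      · simp [a, b]
  · field_simp
    ring

theorem lam3_nonneg {p : ℕ} (hp : p.Prime) (v : Fin 3 → ℕ) : 0 ≤ lam3 p v := by
  unfold lam3
  split_ifs
  · have h1 := Del_nonneg hp (v 0)
    have h2 := Del_nonneg hp (v 1)
    positivity
  · exact le_rfl

theorem Del_le_three {p : ℕ} (hp : p.Prime) (a : ℕ) : Del p a ≤ 3 * Del 2 a := by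
  obtain ⟨hx0, hx1, -⟩ := xlt hp
  unfold Del
  have h1 : (a : ℝ) * (1 - 1 / (p : ℝ)) / (1 + 1 / (p : ℝ)) ≤ a := by
    rw [div_le_iff₀ (by linarith)]
    have ha : (0 : ℝ) ≤ a := by positivity
    nlinarith
  have h2 : (a : ℝ) * (1 - 1 / ((2 : ℕ) : ℝ)) / (1 + 1 / ((2 : ℕ) : ℝ)) = a / 3 := by
    push_cast
    ring
  rw [h2]
  have ha : (0 : ℝ) ≤ a := by positivity
  linarith

theorem lam3_le {p : ℕ} (hp : p.Prime) (v : Fin 3 → ℕ) (hv : 2 ≤ ∑ i, v i) :
    lam3 p v ≤ 36 / (p : ℝ) ^ 2 * lam3 2 v := by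
  obtain ⟨hx0, hx1, hx2⟩ := xlt hp
  have hp0 : (0 : ℝ) < p := by exact_mod_cast hp.pos
  rw [Fin.sum_univ_three] at hv
  unfold lam3
  split_ifs with h
  · have d1 := Del_nonneg hp (v 0)
    have d2 := Del_nonneg hp (v 1)
    have e1 := Del_le_three hp (v 0)
    have e2 := Del_le_three hp (v 1)
    have g1 := Del_nonneg Nat.prime_two (v 0)
    have g2 := Del_nonneg Nat.prime_two (v 1)
    have hpow : (1 / (p : ℝ)) ^ (v 0 + v 1 + v 2) ≤
        4 / (p : ℝ) ^ 2 * (1 / ((2 : ℕ) : ℝ)) ^ (v 0 + v 1 + v 2) := by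
      obtain ⟨k, hk⟩ : ∃ k, v 0 + v 1 + v 2 = k + 2 := ⟨v 0 + v 1 + v 2 - 2, by omega⟩
      rw [hk, pow_add, pow_add]
      push_cast
      have h3 : (1 / (p : ℝ)) ^ k ≤ (1 / 2) ^ k := pow_le_pow_left₀ hx0 hx2 k
      have h4 : (1 / (p : ℝ)) ^ 2 = 1 / (p : ℝ) ^ 2 := by rw [one_div_pow]
      rw [h4]
      calc (1 / (p : ℝ)) ^ k * (1 / (p : ℝ) ^ 2) ≤ (1 / 2) ^ k * (1 / (p : ℝ) ^ 2) := by gcongr
        _ = 4 / (p : ℝ) ^ 2 * ((1 / 2) ^ k * (1 / 2) ^ 2) := by ring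
    calc Del p (v 0) * Del p (v 1) * ((v 0 : ℝ) + v 2 + 1) * ((v 1 : ℝ) + v 2 + 1) *
          (1 / (p : ℝ)) ^ (v 0 + v 1 + v 2)
        ≤ (3 * Del 2 (v 0)) * (3 * Del 2 (v 1)) * ((v 0 : ℝ) + v 2 + 1) *
          ((v 1 : ℝ) + v 2 + 1) *
          (4 / (p : ℝ) ^ 2 * (1 / ((2 : ℕ) : ℝ)) ^ (v 0 + v 1 + v 2)) := by gcongr
      _ = _ := by ring
  · simp

theorem lam3_LW : LW 3 ![4, 4, 4] lam3 where
  nonneg := fun p hp v => lam3_nonneg hp v
  zero := by
    intro p hp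
    simp [lam3, Del_zero]
  sum := fun p hp => (lam3_hasSum hp).summable
  first := by
    refine ⟨4, fun p hp i => ?_⟩
    obtain ⟨hx0, hx1, -⟩ := xlt hp
    have hp0 : (0 : ℝ) < p := by exact_mod_cast hp.pos
    have hd : Del p 1 * (1 / (p : ℝ)) * 2 - 4 / (p : ℝ) =
        -(4 / (p : ℝ) ^ 2 * (1 / (1 + 1 / (p : ℝ)))) := by
      unfold Del
      push_cast
      field_simp
      ring
    have hb : |Del p 1 * (1 / (p : ℝ)) * 2 - 4 / (p : ℝ)| ≤ 4 / (p : ℝ) ^ 2 := by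
      rw [hd, abs_neg, abs_of_nonneg (by positivity)]
      have h1 : 1 / (1 + 1 / (p : ℝ)) ≤ 1 := by
        rw [div_le_one (by linarith)]
        linarith
      have h2 : (0 : ℝ) ≤ 4 / (p : ℝ) ^ 2 := by positivity
      calc 4 / (p : ℝ) ^ 2 * (1 / (1 + 1 / (p : ℝ))) ≤ 4 / (p : ℝ) ^ 2 * 1 := by gcongr
        _ = _ := mul_one _
    fin_cases i
    · have h1 : lam3 p (Pi.single (0 : Fin 3) 1) = Del p 1 * (1 / (p : ℝ)) * 2 := by
        simp [lam3, Del_zero]
        ring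
      simp only [Fin.zero_eta]
      rw [h1]
      simpa using hb
    · have h1 : lam3 p (Pi.single (1 : Fin 3) 1) = Del p 1 * (1 / (p : ℝ)) * 2 := by
        simp [lam3, Del_zero]
        ring
      simp only [Fin.mk_one]
      rw [h1]
      simpa using hb
    · have h1 : lam3 p (Pi.single (2 : Fin 3) 1) = 4 / (p : ℝ) := by
        simp [lam3, Del_zero]
        ring
      simp only [Fin.reduceFinMk]
      rw [h1]
      simp
      positivity
  second := by
    refine ⟨36 * ∑' v, lam3 2 v, fun p hp => ?_⟩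
    have hs2 := (lam3_hasSum Nat.prime_two).summable
    have hle : ∀ v : Fin 3 → ℕ, (if 2 ≤ ∑ i, v i then lam3 p v else 0) ≤
        36 / (p : ℝ) ^ 2 * lam3 2 v := by
      intro v
      split_ifs with h
      · exact lam3_le hp v h
      · have := lam3_nonneg Nat.prime_two v
        positivity
    have hs : Summable (fun v : Fin 3 → ℕ => if 2 ≤ ∑ i, v i then lam3 p v else 0) := by
      refine Summable.of_nonneg_of_le (fun v => ?_) hle (hs2.mul_left _)
      split_ifs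
      · exact lam3_nonneg hp v
      · exact le_rfl
    calc ∑' v : Fin 3 → ℕ, (if 2 ≤ ∑ i, v i then lam3 p v else 0)
        ≤ ∑' v : Fin 3 → ℕ, 36 / (p : ℝ) ^ 2 * lam3 2 v := hs.tsum_le_tsum hle (hs2.mul_left _)
      _ = 36 * (∑' v, lam3 2 v) / (p : ℝ) ^ 2 := by
        rw [tsum_mul_left]
        ring

/-! ### the weight is multiplicative -/

theorem ext_prod (n : ℕ) (S : Finset ℕ) (hS : n.primeFactors ⊆ S) (g : ℕ → ℕ → ℝ)
    (hg : ∀ p, g p 0 = 1) : n.factorization.prod g = ∏ p ∈ S, g p (n.factorization p) :=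
  Finsupp.prod_of_support_subset _ hS _ (fun i _ => hg i)

theorem d2_prod {n : ℕ} (hn : n ≠ 0) :
    d2 n = n.factorization.prod (fun _ a => (a : ℝ) + 1) := by
  unfold d2
  rw [Nat.card_divisors hn]
  push_cast
  rfl

theorem v3_eq : v3 = mw lam3 := by
  funext b
  unfold mw
  by_cases h0 : ∀ i, b i ≠ 0
  · rw [if_pos h0]
    have hb0 := h0 0
    have hb1 := h0 1
    have hb2 := h0 2
    have hprod : ∏ i, b i = b 0 * b 1 * b 2 := Fin.prod_univ_three b
    have hne : b 0 * b 1 * b 2 ≠ 0 := mul_ne_zero (mul_ne_zero hb0 hb1) hb2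
    by_cases hc : Nat.Coprime (b 0) (b 1)
    · unfold v3
      rw [if_pos ⟨hc, h0⟩]
      set S := (∏ i, b i).primeFactors with hS
      have s0 : (b 0).primeFactors ⊆ S := by
        rw [hS, hprod]
        exact Nat.primeFactors_mono (dvd_mul_of_dvd_left (dvd_mul_right _ _) _) hne
      have s1 : (b 1).primeFactors ⊆ S := by
        rw [hS, hprod]
        exact Nat.primeFactors_mono (dvd_mul_of_dvd_left (dvd_mul_left _ _) _) hne
      have s02 : (b 0 * b 2).primeFactors ⊆ S := by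
        rw [hS, hprod]
        exact Nat.primeFactors_mono ⟨b 1, by ring⟩ hne
      have s12 : (b 1 * b 2).primeFactors ⊆ S := by
        rw [hS, hprod]
        exact Nat.primeFactors_mono ⟨b 0, by ring⟩ hne
      have key : ∀ p ∈ S, lam3 p (fun i => (b i).factorization p) =
          Del p ((b 0).factorization p) * Del p ((b 1).factorization p) *
          (((b 0 * b 2).factorization p : ℝ) + 1) * (((b 1 * b 2).factorization p : ℝ) + 1) *
          (1 / (p : ℝ)) ^ ((b 0 * b 1 * b 2).factorization p) := by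
        intro p hp
        have hpp : p.Prime := Nat.prime_of_mem_primeFactors hp
        have hz : (b 0).factorization p = 0 ∨ (b 1).factorization p = 0 := by
          by_contra hcon
          push Not at hcon
          have h1 : p ∣ b 0 := Nat.dvd_of_factorization_pos hcon.1
          have h2 : p ∣ b 1 := Nat.dvd_of_factorization_pos hcon.2
          have h3 := Nat.dvd_gcd h1 h2
          rw [hc] at h3
          exact hpp.one_lt.ne' (Nat.dvd_one.1 h3)
        unfold lam3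
        rw [if_pos hz, Nat.factorization_mul hb0 hb2, Nat.factorization_mul hb1 hb2,
          Nat.factorization_mul (mul_ne_zero hb0 hb1) hb2, Nat.factorization_mul hb0 hb1]
        simp only [Finsupp.add_apply, Nat.cast_add]
      rw [prod_congr rfl key, prod_mul_distrib, prod_mul_distrib, prod_mul_distrib,
        prod_mul_distrib]
      have e0 : ∏ p ∈ S, Del p ((b 0).factorization p) = De (b 0) :=
        (ext_prod _ S s0 Del Del_zero).symm
      have e1 : ∏ p ∈ S, Del p ((b 1).factorization p) = De (b 1) :=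
        (ext_prod _ S s1 Del Del_zero).symm
      have e02 : ∏ p ∈ S, (((b 0 * b 2).factorization p : ℝ) + 1) = d2 (b 0 * b 2) := by
        rw [d2_prod (mul_ne_zero hb0 hb2)]
        exact (ext_prod _ S s02 (fun _ a => (a : ℝ) + 1) (by simp)).symm
      have e12 : ∏ p ∈ S, (((b 1 * b 2).factorization p : ℝ) + 1) = d2 (b 1 * b 2) := by
        rw [d2_prod (mul_ne_zero hb1 hb2)]
        exact (ext_prod _ S s12 (fun _ a => (a : ℝ) + 1) (by simp)).symm
      have ep : ∏ p ∈ S, (1 / (p : ℝ)) ^ ((b 0 * b 1 * b 2).factorization p) =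
          1 / ((b 0 : ℝ) * (b 1 : ℝ) * (b 2 : ℝ)) := by
        have h1 := Nat.prod_factorization_pow_eq_self hne
        have h2 : ((b 0 * b 1 * b 2 : ℕ) : ℝ) =
            ∏ p ∈ S, (p : ℝ) ^ ((b 0 * b 1 * b 2).factorization p) := by
          conv_lhs => rw [← h1]
          rw [hS, hprod]
          unfold Finsupp.prod
          push_cast
          rfl
        simp only [one_div, inv_pow]
        rw [prod_inv_distrib, ← h2]
        push_cast
        rfl
      rw [e0, e1, e02, e12, ep]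
      ring
    · unfold v3
      rw [if_neg (fun h => hc h.1)]
      obtain ⟨p, hp, h1, h2⟩ := Nat.Prime.not_coprime_iff_dvd.1 hc
      symm
      refine prod_eq_zero (i := p) ?_ ?_
      · rw [hprod, Nat.mem_primeFactors]
        exact ⟨hp, dvd_mul_of_dvd_left (dvd_mul_of_dvd_left h1 _) _, hne⟩
      · unfold lam3
        rw [if_neg]
        rintro (h | h)
        · exact (hp.factorization_pos_of_dvd hb0 h1).ne' h
        · exact (hp.factorization_pos_of_dvd hb1 h2).ne' h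
  · rw [if_neg h0]
    unfold v3
    rw [if_neg (fun h => h0 h.2)]

/-! ### the constant -/

/-- functions `1 + O(p^-2)` give convergent products -/
theorem mult_of {f : ℝ → ℝ} (hf : ContinuousOn f (Set.Icc 0 1)) :
    Multipliable (fun p : Nat.Primes => 1 + (1 / (p : ℝ)) ^ 2 * f (1 / (p : ℝ))) := by
  obtain ⟨C, hC⟩ := (isCompact_Icc (a := (0 : ℝ)) (b := 1)).exists_bound_of_continuousOn hf
  have hsum : Summable (fun p : Nat.Primes => (1 / (p : ℝ)) ^ 2 * C) := by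
    refine Summable.mul_right C ?_
    have h := (Real.summable_one_div_nat_pow (p := 2)).2 (by norm_num)
    have h2 := h.comp_injective (i := fun p : Nat.Primes => (p : ℕ)) Nat.Primes.coe_nat_injective
    refine h2.congr fun p => ?_
    simp [one_div]
  refine Real.multipliable_one_add_of_summable (Summable.of_norm_bounded hsum fun p => ?_)
  obtain ⟨hx0, hx1, -⟩ := xlt p.2
  rw [norm_mul, norm_pow, Real.norm_eq_abs (1 / (p : ℝ)), abs_of_nonneg hx0]
  exact mul_le_mul_of_nonneg_left (hC _ ⟨hx0, hx1.le⟩) (by positivity)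

theorem kp_mult : Multipliable (fun p : Nat.Primes => 1 - (1 / (p : ℝ)) ^ 2) := by
  refine (mult_of (f := fun _ => -1) continuousOn_const).congr fun p => ?_
  ring

theorem kp_ne : kp ≠ 0 := by
  have h2 : Multipliable (fun p : Nat.Primes => 1 / (1 - (1 / (p : ℝ)) ^ 2)) := by
    have hf : ContinuousOn (fun x : ℝ => 1 / (max (3 / 4) (1 - x ^ 2))) (Set.Icc 0 1) := by
      refine Continuous.continuousOn ?_
      refine continuous_const.div (by fun_prop) fun x => ?_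
      have : (3 / 4 : ℝ) ≤ max (3 / 4) (1 - x ^ 2) := le_max_left _ _
      linarith
    refine (mult_of hf).congr fun p => ?_
    obtain ⟨hx0, hx1, hx2⟩ := xlt p.2
    have h3 : (1 / (p : ℝ)) ^ 2 ≤ 1 / 4 := by nlinarith
    have h4 : max (3 / 4) (1 - (1 / (p : ℝ)) ^ 2) = 1 - (1 / (p : ℝ)) ^ 2 :=
      max_eq_right (by linarith)
    rw [h4]
    have h5 : (1 - (1 / (p : ℝ)) ^ 2) ≠ 0 := by linarith
    generalize 1 / (p : ℝ) = x at h5
    field_simp
    ring
  have h3 := kp_mult.tprod_mul h2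
  have h4 : ∀ p : Nat.Primes, (1 - (1 / (p : ℝ)) ^ 2) * (1 / (1 - (1 / (p : ℝ)) ^ 2)) = 1 := by
    intro p
    obtain ⟨hx0, hx1, hx2⟩ := xlt p.2
    have h3 : (1 / (p : ℝ)) ^ 2 ≤ 1 / 4 := by nlinarith
    have h5 : (1 - (1 / (p : ℝ)) ^ 2) ≠ 0 := by linarith
    exact mul_one_div_cancel h5
  simp only [h4, tprod_one] at h3
  intro h5
  unfold kp at h5
  rw [h5, zero_mul] at h3
  exact one_ne_zero h3

theorem const_eq : ∏' p : Nat.Primes, ((1 - 1 / (p : ℝ)) ^ (∑ i, (![4, 4, 4] : Fin 3 → ℕ) i) *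
    ∑' v : Fin 3 → ℕ, lam3 p v) = aF 4 / kp := by
  have hloc : ∀ p : Nat.Primes, (1 - 1 / (p : ℝ)) ^ (∑ i, (![4, 4, 4] : Fin 3 → ℕ) i) *
      ∑' v : Fin 3 → ℕ, lam3 p v =
      (1 - 1 / (p : ℝ)) ^ 8 * (1 + 8 * (1 / (p : ℝ)) + (1 / (p : ℝ)) ^ 2) := by
    intro p
    obtain ⟨hx0, hx1, hx2⟩ := xlt p.2
    rw [(lam3_hasSum p.2).tsum_eq]
    have h1 : ∑ i, (![4, 4, 4] : Fin 3 → ℕ) i = 12 := by
      rw [Fin.sum_univ_three]
      rfl
    rw [h1]
    have hne : (1 - 1 / (p : ℝ)) ≠ 0 := by linarith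
    rw [show (12 : ℕ) = 8 + 4 by norm_num, pow_add]
    field_simp
  have hm : Multipliable (fun p : Nat.Primes =>
      (1 - 1 / (p : ℝ)) ^ 8 * (1 + 8 * (1 / (p : ℝ)) + (1 / (p : ℝ)) ^ 2)) := by
    have hf : ContinuousOn (fun x : ℝ => -35 + 160 * x - 350 * x ^ 2 + 448 * x ^ 3 - 350 * x ^ 4
        + 160 * x ^ 5 - 35 * x ^ 6 + x ^ 8) (Set.Icc 0 1) := by
      refine Continuous.continuousOn ?_
      fun_prop
    refine (mult_of hf).congr fun p => ?_
    ring
  have haF : aF 4 = kp * ∏' p : Nat.Primes,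
      ((1 - 1 / (p : ℝ)) ^ 8 * (1 + 8 * (1 / (p : ℝ)) + (1 / (p : ℝ)) ^ 2)) := by
    unfold kp aF
    rw [← kp_mult.tprod_mul hm]
    refine tprod_congr fun p => ?_
    obtain ⟨hx0, hx1, hx2⟩ := xlt p.2
    rw [(lc4_hasSum hx0 hx1).tsum_eq]
    have h1 : (1 - 1 / (p : ℝ)) ^ ((4 : ℝ) ^ 2) = (1 - 1 / (p : ℝ)) ^ 16 := by
      rw [show ((4 : ℝ) ^ 2) = ((16 : ℕ) : ℝ) by norm_num, Real.rpow_natCast]
    rw [h1]
    have hne : (1 - 1 / (p : ℝ)) ≠ 0 := by linarith
    rw [show (16 : ℕ) = 9 + 7 by norm_num, pow_add]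
    rw [mul_assoc, mul_div_cancel₀ _ (pow_ne_zero 7 hne)]
    ring
  rw [tprod_congr hloc, haF, mul_div_cancel_left₀ _ kp_ne]

/-- MI4 -/
theorem v3_lim
    (hMEP : ∀ {r : ℕ} (hr : 0 < r) (m : Fin r → ℕ) (lam : ℕ → (Fin r → ℕ) → ℝ) (H : LW r m lam),
      KH r (mw lam) ∧ ∀ s : Fin r → ℝ, (∀ i, 0 < s i) →
        Tendsto (fun L : ℝ => (∑' b : Fin r → ℕ, mw lam b * ∏ i, (b i : ℝ) ^ (-(s i / L))) /
            L ^ ((∑ i, m i : ℕ) : ℝ)) atTop
          (𝓝 ((∏' p : Nat.Primes, ((1 - 1 / (p : ℝ)) ^ (∑ i, m i) * ∑' v : Fin r → ℕ, lam p v)) *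
            ∏ i, (s i) ^ (-(m i : ℝ))))) :
    KH 3 v3 ∧ ∀ s : Fin 3 → ℝ, (∀ i, 0 < s i) →
    Tendsto (fun L : ℝ => (∑' b : Fin 3 → ℕ, v3 b * ∏ i, (b i : ℝ) ^ (-(s i / L))) / L ^ (12 : ℝ))
      atTop (𝓝 (aF 4 / kp * ∏ i, (s i) ^ (-((![4, 4, 4] : Fin 3 → ℝ) i)))) := by
  obtain ⟨h1, h2⟩ := hMEP (by norm_num) ![4, 4, 4] lam3 lam3_LW
  rw [← v3_eq] at h1 h2
  refine ⟨h1, fun s hs => ?_⟩
  have h := h2 s hs
  rw [const_eq] at h
  have e1 : ((∑ i, (![4, 4, 4] : Fin 3 → ℕ) i : ℕ) : ℝ) = 12 := by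
    rw [Fin.sum_univ_three]
    simp
  rw [e1] at h
  have e2 : ∏ i, (s i) ^ (-(((![4, 4, 4] : Fin 3 → ℕ) i : ℕ) : ℝ)) =
      ∏ i, (s i) ^ (-((![4, 4, 4] : Fin 3 → ℝ) i)) := by
    rw [Fin.prod_univ_three, Fin.prod_univ_three]
    simp
  rw [e2] at h
  exact h

end

end Pool.Agent.H9R3.EMMI4
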