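import Pool.Agent.H100R2.SC.Stubs

set_option autoImplicit false

namespace Pool.Agent.H100R2.SC.C5fdev

open Pool.Agent.H100R2.SC

/-- two bounding geodesics of the same region are disjoint or equal -/
theorem C5f_disj {L : Set Arc} (hL : Nest L) {H U V : Arc} (hU : Adj L H U) (hV : Adj L H V)
    (hne : U ≠ V) : U ≤ -V ∧ U ≠ -V := by
  have h := adj_trans hL (adj_symm hU) hV
  rcases h.2.2 with h1 | h1
  · exact absurd h1 hne
  · exact ⟨h1.1, h1.2.1⟩

/-- powers of the generator move the other bounding geodesics -/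
theorem C5f_move {A : Subgroup GG} {L : Set Arc} (hA : Fuchs A) (hL : Fam A L) {H : Arc} {α : GG}
    (gα : IsGen A H α) {T : Arc} (hT : Adj L H T) (hne : H ≠ T) (j : ℕ) (hj : 0 < j) :
    T ≠ α ^ j • T := by
  intro h
  obtain ⟨hαA, hα1, hax, -⟩ := gα
  obtain ⟨p1, p2, p3⟩ := ax_pow α (hA.det1 α hαA) (hyp hA hαA hα1) j hj
  obtain ⟨x, y, -, hx, -, -, -⟩ := arc_ends T
  have h1 : α ^ j • x = x := fix_of_smul (α ^ j) T x (by rw [p1]; norm_num) h.symm hx
  have h2 : (ax (α ^ j)).val x = 0 := (ax_val (α ^ j) p1 p2 x).2 h1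
  rw [p3, hax] at h2
  rcases hL.ne H hT.1 T hT.2.1 x h2 hx with h3 | h3
  · exact hne h3
  · rcases hT.2.2 with h4 | h4
    · exact hne h4
    · exact h4.2.1 h3

theorem C5f_smulH {A : Subgroup GG} (hA : Fuchs A) {H : Arc} {α : GG} (gα : IsGen A H α) :
    α • H = H := by
  obtain ⟨hαA, hα1, hax, -⟩ := gα
  have h := ax_smul α (hA.det1 α hαA) (hyp hA hαA hα1)
  rwa [hax] at h

theorem C5f_zpowH {g : GG} {H : Arc} (h : g • H = H) (n : ℤ) : g ^ n • H = H := by
  have h1 : g ∈ MulAction.stabilizer GG H := h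
  exact (MulAction.stabilizer GG H).zpow_mem h1 n

theorem C5f_powH {g : GG} {H : Arc} (h : g • H = H) (n : ℕ) : g ^ n • H = H := by
  have h1 : g ∈ MulAction.stabilizer GG H := h
  exact (MulAction.stabilizer GG H).pow_mem h1 n

/-- powers of the generator move in positive direction -/
theorem C5f_pos {A : Subgroup GG} {L : Set Arc} (hA : Fuchs A) (hL : Fam A L) {H : Arc} {α : GG}
    (gα : IsGen A H α) {T : Arc} (hT : Adj L H T) (hne : H ≠ T) (j : ℕ) (hj : 0 < j) :
    0 < Del H T (α ^ j • T) := by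
  have hm := C5f_move hA hL gα hT hne j hj
  have hs := C5f_powH (C5f_smulH hA gα) j
  obtain ⟨hαA, hα1, hax, -⟩ := gα
  obtain ⟨p1, p2, p3⟩ := ax_pow α (hA.det1 α hαA) (hyp hA hαA hα1) j hj
  have hadj : Adj L H (α ^ j • T) := by
    have := (adj_smul hL (A.pow_mem hαA j)).2 hT
    rwa [hs] at this
  have hd := (C5f_disj hL.toNest hT hadj hm).1
  have hTH : T ≤ -H := (C5f_disj hL.toNest hT (adj_trans hL.toNest hT (adj_symm hT))
    (Ne.symm hne)).1
  have := shift_pos (α ^ j) p1 p2 T (by rw [p3, hax]; exact hTH) hd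
  rwa [p3, hax] at this

theorem C5f_notMem {A : Subgroup GG} {L : Set Arc} (hA : Fuchs A) (hL : Fam A L) (H : Arc)
    (e α : GG) (he : e ∈ A) (gα : IsGen A H α) (h : Adj L H (e • H)) (hne : e • H ≠ H)
    (hu : Unl A L H (e • H))
    (c1 : 0 < Del H (e • H) (e⁻¹ • H)) (c2 : 0 < Del H (e⁻¹ • H) (α • e • H))
    (hone : ∀ T, Adj L H T → ∃ a ∈ A, T = a • H) : ax e ∉ L := by
  intro hmem
  have he1 : e ≠ 1 := by
    rintro rfl
    exact hne (one_smul _ _)
  have ed : dt e = 1 := hA.det1 e he
  have et : 4 < trc e ^ 2 := hyp hA he he1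
  have hαA : α ∈ A := gα.1
  have hαd : dt α = 1 := hA.det1 α hαA
  have hHL : H ∈ L := h.1
  obtain ⟨l1, l2, l3, l4, l5⟩ := loc2 hA hL H e he h hne c1
  have heD : e • ax e = ax e := ax_smul e ed et
  have hαH := C5f_smulH hA gα
  have hHH : Adj L H H := adj_trans hL.toNest h (adj_symm h)
  -- the geodesic of `e` bounds the region of `H`
  have hadj : Adj L H (ax e) := by
    rcases axis_mem hA hL H hHL e he he1 h hmem with h1 | h1
    · exact h1
    · exfalso
      rcases h1.2.2 with h2 | h2
      · apply hne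
        rw [h2, smul_neg', heD]
      · have h3 : H ≤ ax e := by
          have := h2.1
          rwa [neg_neg] at this
        exact Arc.not_le_and h3 (Arc.le_neg_comm l1)
  obtain ⟨c, hc, hcD⟩ := hone _ hadj
  -- adjacency of translates
  have hez : ∀ n : ℤ, Adj L H (e ^ n • H) := by
    intro n
    have hstep : ∀ m : ℕ, Adj L H (e ^ m • H) := by
      intro m
      induction m with
      | zero => simpa using hHH
      | succ m ih =>
        have h1 : Adj L (e • H) (e • e ^ m • H) := (adj_smul hL he).2 ih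
        rw [← mul_smul, ← pow_succ'] at h1
        exact adj_trans hL.toNest h h1
    rcases Int.eq_nat_or_neg n with ⟨m, rfl | rfl⟩
    · rw [zpow_natCast]
      exact hstep m
    · have h1 : Adj L (e ^ (-(m : ℤ)) • H) (e ^ (-(m : ℤ)) • e ^ m • H) :=
        (adj_smul hL (A.zpow_mem he _)).2 (hstep m)
      rw [← mul_smul, ← zpow_natCast e m, ← zpow_add, neg_add_cancel, zpow_zero, one_smul] at h1
      exact adj_symm h1
  have hcH : Adj L H (c • H) := hcD ▸ hadj
  have hKc : Adj L H (c • e • H) := adj_trans hL.toNest hcH ((adj_smul hL hc).2 h)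
  have hKD : c • e • H ≠ ax e := by
    rw [hcD]
    intro h1
    exact hne (smul_left_cancel c h1)
  have hHD : H ≠ ax e := by
    intro h1
    apply hne
    rw [h1, heD]
  have hHe : H ≤ -(e • H) := (C5f_disj hL.toNest hHH h (Ne.symm hne)).1
  obtain ⟨n, hn⟩ := shift_cover e ed et H (c • e • H) (Arc.le_neg_comm l1)
    (C5f_disj hL.toNest hKc hadj hKD).1 hHe
    (fun n hn => (C5f_disj hL.toNest (hez n) hKc hn).1)
  have heDz : e ^ n • ax e = ax e := C5f_zpowH heD n
  have heDz' : e ^ (-n) • ax e = ax e := C5f_zpowH heD (-n)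
  have hdz : 0 < dt (e ^ (-n)) := by
    rw [hA.det1 _ (A.zpow_mem he (-n))]
    norm_num
  rcases hn with hn | ⟨hn1, hn2⟩
  · -- the other end is a chain element
    set f : GG := e ^ (-n) * c with hf
    have hfA : f ∈ A := A.mul_mem (A.zpow_mem he _) hc
    have hfD : f • H = ax e := by
      rw [hf, mul_smul, ← hcD, heDz']
    have hfe : (f * e) • H = H := by
      rw [hf, mul_smul, mul_smul, hn, ← mul_smul, ← zpow_add, neg_add_cancel, zpow_zero, one_smul]
    obtain ⟨m, hm⟩ := gα.2.2.2 (f * e) (A.mul_mem hfA he) hfe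
    have hDm : ax e = α ^ m • e⁻¹ • H := by
      rw [← hfD, ← hm, ← mul_smul, mul_assoc, mul_inv_cancel, mul_one]
    have hT : Adj L H (e⁻¹ • H) := by
      have := hez (-1)
      rwa [zpow_neg_one] at this
    have hTne : H ≠ e⁻¹ • H := by
      intro h1
      apply hne
      have h2 : e • H = e • e⁻¹ • H := congrArg (fun x => e • x) h1
      rw [h2, ← mul_smul, mul_inv_cancel, one_smul]
    rcases lt_trichotomy m 0 with hm0 | hm0 | hm0
    · -- m < 0
      obtain ⟨j, hj⟩ : ∃ j : ℕ, m = -((j : ℤ) + 1) := ⟨(-m - 1).toNat, by omega⟩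
      have h3 : α ^ j • ax e = α⁻¹ • e⁻¹ • H := by
        rw [hDm, hj, ← mul_smul, ← zpow_natCast α j, ← zpow_add, ← zpow_neg_one α]
        congr 2
        ring
      have h4 : 0 < Del H (α⁻¹ • e⁻¹ • H) (e • H) := by
        have h5 := Del_smul_pos α (by rw [hαd]; norm_num) H (α⁻¹ • e⁻¹ • H) (e • H)
        rw [hαH, ← mul_smul α α⁻¹, mul_inv_cancel, one_smul] at h5
        rw [← h5]
        exact c2
      have h6 : 0 < Del H (ax e) (e • H) := by
        rcases Nat.eq_zero_or_pos j with hj0 | hj0
        · rw [hj0, pow_zero, one_smul] at h3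
          rw [h3]
          exact h4
        · have h7 := C5f_pos hA hL gα hadj hHD j hj0
          rw [h3] at h7
          have hne1 := C5f_move hA hL gα hadj hHD j hj0
          rw [h3] at hne1
          have hadj2 : Adj L H (α⁻¹ • e⁻¹ • H) := by
            have h8 := (adj_smul hL (A.inv_mem hαA)).2 hT
            have h9 : α⁻¹ • H = H := by
              have := C5f_zpowH hαH (-1)
              rwa [zpow_neg_one] at this
            rwa [h9] at h8
          have hne2 : ax e ≠ e • H := by
            intro h8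
            rw [h8] at l4
            have h9 := Del_swap H (e • H) (e • H)
            linarith
          have hne3 : α⁻¹ • e⁻¹ • H ≠ e • H := by
            intro h8
            rw [h8] at h4
            have h9 := Del_swap H (e • H) (e • H)
            linarith
          have hne4 : H ≠ α⁻¹ • e⁻¹ • H := by
            intro h8
            rw [← h8] at h7
            have h9 := Del_rot H (ax e) H
            have h10 := Del_rot (ax e) H H
            have h11 := Del_swap (ax e) H H
            linarith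
          exact Del_trans H (ax e) (α⁻¹ • e⁻¹ • H) (e • H)
            (C5f_disj hL.toNest hHH hadj hHD).1 (C5f_disj hL.toNest hHH hadj2 hne4).1 hHe
            (C5f_disj hL.toNest hadj hadj2 hne1).1 (C5f_disj hL.toNest hadj h hne2).1
            (C5f_disj hL.toNest hadj2 h hne3).1 h7 h4
      have h12 := Del_swap H (ax e) (e • H)
      linarith
    · rw [hm0, zpow_zero, one_smul] at hDm
      rw [← hDm] at l5
      have h9 := Del_swap H (ax e) (ax e)
      linarith
    · obtain ⟨j, hj⟩ : ∃ j : ℕ, m = (j : ℤ) := ⟨m.toNat, by omega⟩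
      have h7 := C5f_pos hA hL gα hT hTne j (by omega)
      rw [hj, zpow_natCast] at hDm
      rw [← hDm] at h7
      have h12 := Del_swap H (ax e) (e⁻¹ • H)
      linarith
  · -- the other end is in a gap: linked pairs
    have hc'A : e ^ (-n) * c ∈ A := A.mul_mem (A.zpow_mem he _) hc
    have hfD : (e ^ (-n) * c) • H = ax e := by
      rw [mul_smul, ← hcD, heDz']
    have hK' : (e ^ (-n) * c) • e • H = e ^ (-n) • c • e • H := mul_smul _ _ _
    have hunl := hu (e ^ (-n) * c) hc'A (by rw [hfD]; exact hadj)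
    apply hunl
    rw [hfD, hK']
    set K' : Arc := e ^ (-n) • c • e • H with hK'd
    have e1 : e ^ (-n) • e ^ n • H = H := by
      rw [← mul_smul, ← zpow_add, neg_add_cancel, zpow_zero, one_smul]
    have e2 : e ^ (-n) • e ^ (n + 1) • H = e • H := by
      rw [← mul_smul, ← zpow_add, neg_add_cancel_left, zpow_one]
    have d1 : 0 < Del (ax e) H K' := by
      have := Del_smul_pos (e ^ (-n)) hdz (ax e) (e ^ n • H) (c • e • H)
      rw [heDz', e1] at this
      rw [hK'd, this]
      exact hn1
    have d2 : 0 < Del (ax e) K' (e • H) := by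
      have := Del_smul_pos (e ^ (-n)) hdz (ax e) (c • e • H) (e ^ (n + 1) • H)
      rw [heDz', e2] at this
      rw [hK'd, this]
      exact hn2
    have hK'adj : Adj L H K' := by
      have h1 : Adj L (e ^ (-n) • H) (e ^ (-n) • c • e • H) :=
        (adj_smul hL (A.zpow_mem he _)).2 hKc
      exact adj_trans hL.toNest (hez (-n)) h1
    have n1 : K' ≠ e • H := by
      intro h8
      rw [h8] at d2
      have h9 := Del_swap (ax e) (e • H) (e • H)
      linarith
    have n2 : K' ≠ ax e := by
      intro h8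
      rw [h8] at d2
      have h9 := Del_rot (ax e) (ax e) (e • H)
      have h10 := Del_rot (ax e) (e • H) (ax e)
      have h11 := Del_swap (e • H) (ax e) (ax e)
      linarith
    have n3 : K' ≠ H := by
      intro h8
      rw [h8] at d1
      have h9 := Del_swap (ax e) H H
      linarith
    have n4 : e • H ≠ ax e := by
      intro h8
      rw [h8] at l4
      have h9 := Del_swap H (ax e) (ax e)
      linarith
    right
    constructor
    · -- Del H K' (e • H)
      have r1 : 0 < Del K' (e • H) (ax e) := by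
        rw [← Del_rot (ax e) K' (e • H)]
        exact d2
      have r2 : 0 < Del K' (ax e) H := by
        rw [Del_rot K' (ax e) H]
        exact d1
      have r3 := Del_trans K' (e • H) (ax e) H
        (C5f_disj hL.toNest hK'adj h n1).1 (C5f_disj hL.toNest hK'adj hadj n2).1
        (C5f_disj hL.toNest hK'adj hHH n3).1 (C5f_disj hL.toNest h hadj n4).1
        (C5f_disj hL.toNest h hHH hne).1 (C5f_disj hL.toNest hadj hHH (Ne.symm hHD)).1 r1 r2
      rw [Del_rot K' (e • H) H, Del_rot (e • H) H K'] at r3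
      exact r3
    · rw [Del_rot (e • H) (ax e) H, Del_rot (ax e) H (e • H)]
      exact l4

-- C5f
theorem caseTwo {A : Subgroup GG} {L : Set Arc} (hA : Fuchs A) (hL : Fam A L) (H : Arc) (e α : GG)
    (he : e ∈ A) (gα : IsGen A H α) (h : Adj L H (e • H)) (hne : e • H ≠ H) (hu : Unl A L H (e • H))
    (c1 : 0 < Del H (e • H) (e⁻¹ • H)) (c2 : 0 < Del H (e⁻¹ • H) (α • e • H))
    (hone : ∀ T, Adj L H T → ∃ a ∈ A, T = a • H) :
    ax e ∉ L ∧ Fam A (L ∪ Orb A (ax e)) ∧ Adj (L ∪ Orb A (ax e)) H (ax e) ∧
      (∀ U, Adj L H U → U ≤ ax e ∨ U ≤ -(ax e)) := by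
  have hDL := C5f_notMem hA hL H e α he gα h hne hu c1 c2 hone
  have he1 : e ≠ 1 := by
    rintro rfl
    exact hne (one_smul _ _)
  have hHL : H ∈ L := h.1
  obtain ⟨l1, -, -, -, -⟩ := loc2 hA hL H e he h hne c1
  have hes := edge2 hA hL H e α he gα h hne hu c1 c2 hDL
  have hsl := side_lemma hA hL H hHL e he he1 h hDL (fun c hc hcH => hes c hc hcH)
  refine ⟨hDL, add_fam hA hL H hHL e he he1 h hDL ?_,
    (add_adj hA hL H hHL e he he1 h hDL (Arc.le_neg_comm l1) hsl).1,
    axis_in_region hA hL H hHL e he he1 h⟩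
  intro c hc hcH
  by_cases hcase : c • H ≤ ax e
  · rcases (hsl c hc hcH).1 hcase with h1 | h1
    · exact Or.inl h1
    · right; right; right
      have := Arc.neg_le_neg h1
      rwa [neg_neg] at this
  · rcases (hsl c hc hcH).2 hcase with h1 | h1
    · right; right; left
      exact h1
    · right; left
      have := Arc.neg_le_neg h1
      rwa [neg_neg, neg_neg] at this

end Pool.Agent.H100R2.SC.C5fdev
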